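import Mathlib

set_option autoImplicit false

namespace Pool.Agent.Results.MP_209e83_co.TypeBLogConvex

open Finset

/-- Signed permutations `w` of `[n]` in window notation: the pair `(π, s)` stands for
`w(i) = -π(i)` if `s i = true` and `w(i) = π(i)` otherwise (positions and values are
`1, …, n`, here shifted to `0, …, n-1`). -/
abbrev SP (n : ℕ) : Type := Equiv.Perm (Fin n) × (Fin n → Bool)

/-- The value `w(i)` for `1 ≤ i ≤ n`, and `w(0) = 0` (also `0` for `i > n`). -/
def val {n : ℕ} (w : SP n) : ℕ → ℤ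
  | 0 => 0
  | i + 1 => if h : i < n then
      (if w.2 ⟨i, h⟩ = true then -(((w.1 ⟨i, h⟩ : Fin n) : ℕ) + 1 : ℤ)
        else (((w.1 ⟨i, h⟩ : Fin n) : ℕ) + 1 : ℤ)) else 0

/-- The number of type B descents: the `i ∈ {0, …, n-1}` with `w(i) > w(i+1)`. -/
def desB {n : ℕ} (w : SP n) : ℕ := ((range n).filter fun i => val w (i + 1) < val w i).card

/-- The type B Eulerian number `B_{n,k}`. -/
def B (n k : ℕ) : ℕ := ((univ : Finset (SP n)).filter fun w => desB w = k).card

/-! ### The recurrence, by insertion of the largest letter -/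

/-- number of descents of a function on `0, ..., n` -/
def dn (f : ℕ → ℤ) (n : ℕ) : ℕ := ∑ i ∈ range n, if f (i + 1) < f i then 1 else 0

/-- insertion of the value `M` at the place `p` -/
def ins (f : ℕ → ℤ) (p : ℕ) (M : ℤ) (i : ℕ) : ℤ :=
  if i < p then f i else if i = p then M else f (i - 1)

theorem dn_succ (f : ℕ → ℤ) (n : ℕ) :
    dn f (n + 1) = dn f n + if f (n + 1) < f n then 1 else 0 := Finset.sum_range_succ _ _

theorem dn_congr (f g : ℕ → ℤ) (n : ℕ) (h : ∀ i ≤ n, f i = g i) : dn f n = dn g n := by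
  unfold dn
  apply Finset.sum_congr rfl
  intro i hi
  rw [mem_range] at hi
  rw [h i (by omega), h (i + 1) (by omega)]

theorem ins_lt (f : ℕ → ℤ) (p : ℕ) (M : ℤ) (i : ℕ) (h : i < p) : ins f p M i = f i := if_pos h

theorem ins_eq (f : ℕ → ℤ) (p : ℕ) (M : ℤ) : ins f p M p = M := by simp [ins]

theorem ins_gt (f : ℕ → ℤ) (p : ℕ) (M : ℤ) (i : ℕ) (h : p ≤ i) : ins f p M (i + 1) = f i := by
  unfold ins
  rw [if_neg (by omega), if_neg (by omega)]
  simp

theorem ins_last (f : ℕ → ℤ) (M : ℤ) (n : ℕ) :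
    dn (ins f (n + 1) M) (n + 1) = dn f n + if M < f n then 1 else 0 := by
  rw [dn_succ, ins_eq, ins_lt _ _ _ _ (Nat.lt_succ_self n)]
  congr 1
  apply dn_congr
  intro i hi
  exact ins_lt _ _ _ _ (by omega)

theorem ins_mid (f : ℕ → ℤ) (M : ℤ) (p n : ℕ) (hp : p + 1 ≤ n)
    (hM : (∀ i ≤ n, f i < M) ∨ (∀ i ≤ n, M < f i)) :
    dn (ins f (p + 1) M) (n + 1) + (if f (p + 1) < f p then 1 else 0) = dn f n + 1 := by
  induction n, hp using Nat.le_induction with
  | base =>
    rw [dn_succ, ins_last, ins_gt _ _ _ _ le_rfl, ins_eq, dn_succ]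
    rcases hM with hM | hM
    · have h1 := hM p (by omega)
      have h2 := hM (p + 1) le_rfl
      rw [if_neg (by omega), if_pos h2]
      omega
    · have h1 := hM p (by omega)
      have h2 := hM (p + 1) le_rfl
      rw [if_pos h1, if_neg (by omega)]
      omega
  | succ n hn ih =>
    have h2 := ih (by
      rcases hM with hM | hM
      · exact Or.inl fun i hi => hM i (by omega)
      · exact Or.inr fun i hi => hM i (by omega))
    rw [dn_succ, ins_gt _ _ _ (n + 1) (by omega), ins_gt _ _ _ n hn, dn_succ f n]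
    omega

theorem desB_dn {n : ℕ} (w : SP n) : desB w = dn (val w) n := by
  unfold desB dn
  rw [Finset.card_filter]

theorem val_succ {n : ℕ} (w : SP n) (i : Fin n) : val w ((i : ℕ) + 1) =
    if w.2 i = true then -(((w.1 i : Fin n) : ℕ) + 1 : ℤ) else (((w.1 i : Fin n) : ℕ) + 1 : ℤ) := by
  show (if h : (i : ℕ) < n then _ else _) = _
  rw [dif_pos i.2]

theorem val_abs {n : ℕ} (w : SP n) (i : ℕ) : -((n : ℤ) + 1) < val w i ∧ val w i < (n : ℤ) + 1 := by
  rcases i with _ | i
  · show -((n : ℤ) + 1) < 0 ∧ (0 : ℤ) < (n : ℤ) + 1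
    omega
  · by_cases h : i < n
    · have h1 := val_succ w ⟨i, h⟩
      simp only at h1
      rw [h1]
      have h2 := (w.1 ⟨i, h⟩).2
      split_ifs <;> omega
    · have : val w (i + 1) = 0 := dif_neg h
      rw [this]
      omega

/-- insertion of the letter `±(n+1)` at the place `p` -/
def Ph {n : ℕ} (x : (Fin (n + 1) × Bool) × SP n) : SP (n + 1) :=
  ((finSuccEquiv' x.1.1).trans ((Equiv.optionCongr x.2.1).trans (finSuccEquiv' (Fin.last n)).symm),
    Fin.insertNth x.1.1 x.1.2 x.2.2)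

theorem Ph_self {n : ℕ} (p : Fin (n + 1)) (b : Bool) (w : SP n) :
    (Ph ((p, b), w)).1 p = Fin.last n ∧ (Ph ((p, b), w)).2 p = b := by
  constructor
  · simp [Ph]
  · simp [Ph]

theorem Ph_succAbove {n : ℕ} (p : Fin (n + 1)) (b : Bool) (w : SP n) (i : Fin n) :
    (Ph ((p, b), w)).1 (p.succAbove i) = (w.1 i).castSucc ∧
    (Ph ((p, b), w)).2 (p.succAbove i) = w.2 i := by
  constructor
  · simp [Ph]
  · simp [Ph]

theorem Ph_bij {n : ℕ} : Function.Bijective (Ph (n := n)) := by
  rw [Fintype.bijective_iff_injective_and_card]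
  constructor
  · rintro ⟨⟨p, b⟩, w⟩ ⟨⟨p', b'⟩, w'⟩ h
    have h1 : p = p' := by
      apply (Ph ((p, b), w)).1.injective
      rw [(Ph_self p b w).1, h, (Ph_self p' b' w').1]
    subst h1
    have h2 : b = b' := by
      rw [← (Ph_self p b w).2, h, (Ph_self p b' w').2]
    subst h2
    have h3 : w = w' := by
      apply Prod.ext
      · ext i
        have h2 := congrArg (fun e : SP (n + 1) => ((e.1 (p.succAbove i)) : ℕ)) h
        simp only [(Ph_succAbove p b _ i).1, Fin.val_castSucc] at h2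
        exact h2
      · funext i
        rw [← (Ph_succAbove p b w i).2, h, (Ph_succAbove p b w' i).2]
    rw [h3]
  · simp only [Fintype.card_prod, Fintype.card_perm, Fintype.card_fin, Fintype.card_bool,
      Fintype.card_pi, Finset.prod_const, Finset.card_univ, Nat.factorial_succ, pow_succ]
    ring

/-- the inserted letter -/
def lt (n : ℕ) (b : Bool) : ℤ := if b = true then -((n : ℤ) + 1) else (n : ℤ) + 1

theorem val_Ph {n : ℕ} (p : Fin (n + 1)) (b : Bool) (w : SP n) (i : ℕ) (hi : i ≤ n + 1) :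
    val (Ph ((p, b), w)) i = ins (val w) ((p : ℕ) + 1) (lt n b) i := by
  rcases i with _ | i
  · rw [ins_lt _ _ _ _ (by omega)]; rfl
  have e1 := val_succ (Ph ((p, b), w)) ⟨i, by omega⟩
  simp only at e1
  rw [e1]
  rcases lt_trichotomy i p.val with h | h | h
  · rw [ins_lt _ _ _ _ (by omega)]
    have hi' : i < n := by have := p.2; omega
    have h1 : p.succAbove ⟨i, hi'⟩ = ⟨i, by omega⟩ := by
      rw [Fin.succAbove_of_castSucc_lt]
      · rfl
      · exact h
    rw [← h1, (Ph_succAbove p b w _).1, (Ph_succAbove p b w _).2, Fin.val_castSucc]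
    exact (val_succ w ⟨i, hi'⟩).symm
  · have h0 : i + 1 = (p : ℕ) + 1 := by omega
    rw [h0, ins_eq]
    have h1 : (⟨i, by omega⟩ : Fin (n + 1)) = p := Fin.ext h
    rw [h1, (Ph_self p b w).1, (Ph_self p b w).2]
    unfold lt
    simp
  · obtain ⟨j, rfl⟩ : ∃ j, i = j + 1 := ⟨i - 1, by omega⟩
    rw [ins_gt _ _ _ _ (by omega)]
    have hi' : j < n := by omega
    have h1 : p.succAbove ⟨j, hi'⟩ = ⟨j + 1, by omega⟩ := by
      rw [Fin.succAbove_of_le_castSucc]
      · rfl
      · rw [Fin.le_def]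
        simp only [Fin.val_castSucc]
        omega
    rw [← h1, (Ph_succAbove p b w _).1, (Ph_succAbove p b w _).2, Fin.val_castSucc]
    exact (val_succ w ⟨j, hi'⟩).symm

theorem desB_Ph {n : ℕ} (p : Fin (n + 1)) (b : Bool) (w : SP n) :
    desB (Ph ((p, b), w)) = dn (ins (val w) ((p : ℕ) + 1) (lt n b)) (n + 1) := by
  rw [desB_dn]
  exact dn_congr _ _ _ fun i hi => val_Ph p b w i hi

theorem count_p {n : ℕ} (w : SP n) (m : ℕ) :
    (∑ x : Fin (n + 1) × Bool, if desB (Ph (x, w)) = m then (1 : ℤ) else 0) =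
      (2 * (desB w : ℤ) + 1) * (if desB w = m then 1 else 0) +
        (2 * (n : ℤ) - 2 * desB w + 1) * (if desB w + 1 = m then 1 else 0) := by
  rw [Fintype.sum_prod_type]
  simp only [Fintype.sum_bool, desB_Ph]
  have hlast : ∀ b, dn (ins (val w) (n + 1) (lt n b)) (n + 1) =
      desB w + if b = true then 1 else 0 := by
    intro b
    have hv := val_abs w n
    rw [ins_last, desB_dn]
    congr 1
    unfold lt
    cases b
    · simp only [Bool.false_eq_true, if_false]
      rw [if_neg (by omega)]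
    · simp only [if_true]
      rw [if_pos (by omega)]
  rw [← Finset.sum_range (fun p : ℕ =>
    (if dn (ins (val w) (p + 1) (lt n true)) (n + 1) = m then (1 : ℤ) else 0) +
    (if dn (ins (val w) (p + 1) (lt n false)) (n + 1) = m then (1 : ℤ) else 0)),
    Finset.sum_range_succ, hlast, hlast]
  have h1 : ∀ q ∈ range n,
      (if dn (ins (val w) (q + 1) (lt n true)) (n + 1) = m then (1 : ℤ) else 0) +
      (if dn (ins (val w) (q + 1) (lt n false)) (n + 1) = m then (1 : ℤ) else 0) =
      (if val w (q + 1) < val w q then (1 : ℤ) else 0) * (2 * if desB w = m then 1 else 0) +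
      (1 - (if val w (q + 1) < val w q then (1 : ℤ) else 0)) *
        (2 * if desB w + 1 = m then 1 else 0) := by
    intro q hq
    rw [mem_range] at hq
    have hb : ∀ b, dn (ins (val w) (q + 1) (lt n b)) (n + 1) +
        (if val w (q + 1) < val w q then 1 else 0) = desB w + 1 := by
      intro b
      rw [ins_mid (val w) (lt n b) q n (by omega), ← desB_dn]
      unfold lt
      cases b
      · left
        intro i _
        simp only [Bool.false_eq_true, if_false]
        exact (val_abs w i).2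
      · right
        intro i _
        simp only [if_true]
        exact (val_abs w i).1
    have ht := hb true
    have hf := hb false
    by_cases hd : val w (q + 1) < val w q
    · rw [if_pos hd] at ht hf ⊢
      rw [show dn (ins (val w) (q + 1) (lt n true)) (n + 1) = desB w by omega,
        show dn (ins (val w) (q + 1) (lt n false)) (n + 1) = desB w by omega]
      ring
    · rw [if_neg hd] at ht hf ⊢
      rw [show dn (ins (val w) (q + 1) (lt n true)) (n + 1) = desB w + 1 by omega,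
        show dn (ins (val w) (q + 1) (lt n false)) (n + 1) = desB w + 1 by omega]
      ring
  rw [Finset.sum_congr rfl h1, Finset.sum_add_distrib, ← Finset.sum_mul, ← Finset.sum_mul,
    Finset.sum_sub_distrib]
  have h2 : (∑ q ∈ range n, if val w (q + 1) < val w q then (1 : ℤ) else 0) = desB w := by
    rw [desB_dn]
    unfold dn
    push_cast
    rfl
  rw [h2]
  simp only [Finset.sum_const, Finset.card_range, nsmul_eq_mul, mul_one, if_true,
    Bool.false_eq_true, if_false, add_zero]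
  ring

theorem pick (a b : ℝ) (d n : ℕ) (hd : d ≤ n) (g : ℕ → ℝ) :
    ∑ m ∈ range (n + 2), (a * (if d = m then 1 else 0) + b * (if d + 1 = m then 1 else 0)) * g m =
      a * g d + b * g (d + 1) := by
  simp only [add_mul, Finset.sum_add_distrib]
  congr 1
  · rw [Finset.sum_eq_single d]
    · rw [if_pos rfl, mul_one]
    · intro c _ hc
      rw [if_neg (fun h => hc h.symm)]; ring
    · intro h
      exact absurd (mem_range.mpr (by omega)) h
  · rw [Finset.sum_eq_single (d + 1)]
    · rw [if_pos rfl, mul_one]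
    · intro c _ hc
      rw [if_neg (fun h => hc h.symm)]; ring
    · intro h
      exact absurd (mem_range.mpr (by omega)) h

theorem func (n : ℕ) (g : ℕ → ℝ) :
    ∑ k ∈ range (n + 1 + 1), (B (n + 1) k : ℝ) * g k =
      ∑ k ∈ range (n + 1), (B n k : ℝ) *
        ((2 * (k : ℝ) + 1) * g k + (2 * (n : ℝ) - 2 * k + 1) * g (k + 1)) := by
  have hle : ∀ (n : ℕ) (w : SP n), desB w ≤ n := by
    intro n w
    unfold desB
    calc _ ≤ (range n).card := card_le_card (filter_subset _ _)
      _ = n := card_range n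
  have hB : ∀ (n : ℕ) (g : ℕ → ℝ), ∑ k ∈ range (n + 1), (B n k : ℝ) * g k =
      ∑ w : SP n, g (desB w) := by
    intro n g
    rw [← Finset.sum_fiberwise_of_maps_to (s := (univ : Finset (SP n))) (t := range (n + 1))
      (g := desB) (fun w _ => by rw [mem_range]; have := hle n w; omega)]
    apply Finset.sum_congr rfl
    intro k _
    unfold B
    rw [Finset.sum_congr rfl (g := fun _ => g k) (fun w hw => by rw [(mem_filter.mp hw).2]),
      Finset.sum_const, nsmul_eq_mul]
  rw [hB (n + 1) g, hB n (fun k => (2 * (k : ℝ) + 1) * g k + (2 * (n : ℝ) - 2 * k + 1) * g (k + 1)),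
    ← (Ph_bij (n := n)).sum_comp (fun w => g (desB w)), Fintype.sum_prod_type,
    Finset.sum_comm]
  apply Finset.sum_congr rfl
  intro w _
  -- expand over the possible values of the descent number
  have h1 : ∀ x : Fin (n + 1) × Bool, g (desB (Ph (x, w))) =
      ∑ m ∈ range (n + 2), (if desB (Ph (x, w)) = m then (1 : ℝ) else 0) * g m := by
    intro x
    rw [Finset.sum_eq_single (desB (Ph (x, w)))]
    · simp
    · intro b _ hb
      rw [if_neg (fun h => hb h.symm), zero_mul]
    · intro h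
      exact absurd (mem_range.mpr (by have := hle (n + 1) (Ph (x, w)); omega)) h
  rw [Finset.sum_congr rfl (fun x _ => h1 x), Finset.sum_comm]
  have h2 : ∀ m ∈ range (n + 2),
      (∑ x : Fin (n + 1) × Bool, (if desB (Ph (x, w)) = m then (1 : ℝ) else 0) * g m) =
      ((2 * (desB w : ℝ) + 1) * (if desB w = m then 1 else 0) +
        (2 * (n : ℝ) - 2 * desB w + 1) * (if desB w + 1 = m then 1 else 0)) * g m := by
    intro m _
    rw [← Finset.sum_mul]
    congr 1
    have := congrArg (fun z : ℤ => (z : ℝ)) (count_p w m)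
    push_cast at this
    exact this
  rw [Finset.sum_congr rfl h2]
  have hw := hle n w
  exact pick _ _ (desB w) n hw g

/-- The type B Eulerian transformation `z_n = ∑_{k ≤ n} B_{n,k} x_k` preserves log-convexity. -/
theorem result : ∀ x : ℕ → ℝ, (∀ n, 0 ≤ x n) →
    (∀ k, 1 ≤ k → x k ^ 2 ≤ x (k - 1) * x (k + 1)) →
    ∀ z : ℕ → ℝ, (∀ n, z n = ∑ k ∈ range (n + 1), (B n k : ℝ) * x k) →
    (∀ n, 0 ≤ z n) ∧ ∀ n, 1 ≤ n → z n ^ 2 ≤ z (n - 1) * z (n + 1) := by
  intro x hx hlc z hz
  refine ⟨fun n => by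
    rw [hz n]
    exact Finset.sum_nonneg fun k _ => mul_nonneg (Nat.cast_nonneg _) (hx k), ?_⟩
  intro n' hn'
  obtain ⟨n, rfl⟩ : ∃ n, n' = n + 1 := ⟨n' - 1, by omega⟩
  rw [Nat.add_sub_cancel]
  have e1 : z (n + 1) = ∑ k ∈ range (n + 1), (B n k : ℝ) *
      ((2 * (k : ℝ) + 1) * x k + (2 * (n : ℝ) - 2 * k + 1) * x (k + 1)) := by
    rw [hz, func]
  have e2 : z (n + 1 + 1) = ∑ k ∈ range (n + 1), (B n k : ℝ) *
      ((2 * (k : ℝ) + 1) * ((2 * (k : ℝ) + 1) * x k + (2 * (n : ℝ) - 2 * k + 3) * x (k + 1)) +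
        (2 * (n : ℝ) - 2 * k + 1) *
        ((2 * (k : ℝ) + 3) * x (k + 1) + (2 * (n : ℝ) - 2 * k + 1) * x (k + 2))) := by
    rw [hz, func (n + 1) x, func n]
    apply Finset.sum_congr rfl
    intro k _
    push_cast
    ring
  rw [e1, e2, hz n]
  apply Finset.sum_sq_le_sum_mul_sum_of_sq_le_mul
  · intro k _
    exact mul_nonneg (Nat.cast_nonneg _) (hx k)
  · intro k hk
    have hkn : (k : ℝ) ≤ n := by
      have := Finset.mem_range.mp hk
      exact_mod_cast Nat.lt_succ_iff.mp this
    have h0 := hx k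
    have h1 := hx (k + 1)
    have h2 := hx (k + 2)
    have hk0 : (0 : ℝ) ≤ k := Nat.cast_nonneg _
    have hq : (0 : ℝ) ≤ 2 * (n : ℝ) - 2 * k + 1 := by linarith
    have hq1 : (0 : ℝ) ≤ 2 * (n : ℝ) - 2 * k + 3 := by linarith
    positivity
  · intro k hk
    have hkn : (k : ℝ) ≤ n := by
      have := Finset.mem_range.mp hk
      exact_mod_cast Nat.lt_succ_iff.mp this
    have h0 := hx k
    have h1 := hx (k + 1)
    have h2 := hx (k + 2)
    have hk0 : (0 : ℝ) ≤ k := Nat.cast_nonneg _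
    have hq : (0 : ℝ) ≤ 2 * (n : ℝ) - 2 * k + 1 := by linarith
    have hc := hlc (k + 1) (by omega)
    rw [Nat.add_sub_cancel] at hc
    have hB : (0 : ℝ) ≤ (B n k : ℝ) ^ 2 := sq_nonneg _
    have key : ((2 * (k : ℝ) + 1) * x k + (2 * (n : ℝ) - 2 * k + 1) * x (k + 1)) ^ 2 ≤
        x k * ((2 * (k : ℝ) + 1) * ((2 * (k : ℝ) + 1) * x k +
          (2 * (n : ℝ) - 2 * k + 3) * x (k + 1)) + (2 * (n : ℝ) - 2 * k + 1) *
        ((2 * (k : ℝ) + 3) * x (k + 1) + (2 * (n : ℝ) - 2 * k + 1) * x (k + 2))) := by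
      have e : x k * ((2 * (k : ℝ) + 1) * ((2 * (k : ℝ) + 1) * x k +
          (2 * (n : ℝ) - 2 * k + 3) * x (k + 1)) + (2 * (n : ℝ) - 2 * k + 1) *
        ((2 * (k : ℝ) + 3) * x (k + 1) + (2 * (n : ℝ) - 2 * k + 1) * x (k + 2))) -
        ((2 * (k : ℝ) + 1) * x k + (2 * (n : ℝ) - 2 * k + 1) * x (k + 1)) ^ 2 =
        (4 * (n : ℝ) + 4) * (x k * x (k + 1)) +
          (2 * (n : ℝ) - 2 * k + 1) ^ 2 * (x k * x (k + 1 + 1) - x (k + 1) ^ 2) := by
        ring
      have p1 : 0 ≤ (4 * (n : ℝ) + 4) * (x k * x (k + 1)) := by positivity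
      have p2 : 0 ≤ (2 * (n : ℝ) - 2 * k + 1) ^ 2 * (x k * x (k + 1 + 1) - x (k + 1) ^ 2) :=
        mul_nonneg (sq_nonneg _) (by linarith)
      linarith
    calc ((B n k : ℝ) * ((2 * (k : ℝ) + 1) * x k + (2 * (n : ℝ) - 2 * k + 1) * x (k + 1))) ^ 2 =
          (B n k : ℝ) ^ 2 *
            ((2 * (k : ℝ) + 1) * x k + (2 * (n : ℝ) - 2 * k + 1) * x (k + 1)) ^ 2 := by ring
      _ ≤ (B n k : ℝ) ^ 2 * (x k * ((2 * (k : ℝ) + 1) * ((2 * (k : ℝ) + 1) * x k +
          (2 * (n : ℝ) - 2 * k + 3) * x (k + 1)) + (2 * (n : ℝ) - 2 * k + 1) *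
        ((2 * (k : ℝ) + 3) * x (k + 1) + (2 * (n : ℝ) - 2 * k + 1) * x (k + 2)))) :=
          mul_le_mul_of_nonneg_left key hB
      _ = _ := by ring

end Pool.Agent.Results.MP_209e83_co.TypeBLogConvex
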